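import Pool.Agent.V11316.Odd3

set_option autoImplicit false

/-!
# `S_d(n) ≡ 0 (mod Φ_n(q)⁴)` for odd `d ≥ 5` and `2n ≡ -1 (mod d)`

We work in the field `ℚ(q) = RatFunc ℚ`.
-/

namespace Pool.Agent.Results.MP_3c5a12_nt.PhiFourth

open Polynomial Finset

noncomputable section

/-- the indeterminate `q` -/
def q : RatFunc ℚ := RatFunc.X

/-- the `q`-integer `[m] = (1 - q^m)/(1 - q)` -/
def qint (m : ℕ) : RatFunc ℚ := (1 - q ^ m) / (1 - q)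

/-- the `q`-shifted factorial `(a;p)_k = ∏_{i<k} (1 - a p^i)` -/
def poch (a p : RatFunc ℚ) (k : ℕ) : RatFunc ℚ := ∏ i ∈ range k, (1 - a * p ^ i)

/-- `S_d(n) = ∑_{0 ≤ k ≤ n-1} [2dk+1] ((q;q^d)_k/(q^d;q^d)_k)^d q^{d(d-3)k/2}` -/
def S (d n : ℕ) : RatFunc ℚ :=
  ∑ k ∈ range n, qint (2 * d * k + 1) * (poch q (q ^ d) k / poch (q ^ d) (q ^ d) k) ^ d *
    q ^ (d * (d - 3) / 2 * k)

/-- an integer polynomial in `q`, seen in `ℚ(q)` -/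
def toRat (f : ℤ[X]) : RatFunc ℚ :=
  algebraMap ℚ[X] (RatFunc ℚ) (f.map (Int.castRingHom ℚ))

/-- `x ≡ 0 (mod Φ_n(q)^j)`: `x = Φ_n(q)^j A(q)/B(q)` with `A, B ∈ ℤ[q]` and `Φ_n ∤ B`. -/
def CongZero (n j : ℕ) (x : RatFunc ℚ) : Prop :=
  ∃ A B : ℤ[X], ¬ cyclotomic n ℤ ∣ B ∧ x * toRat B = toRat (cyclotomic n ℤ ^ j * A)

theorem result (d n : ℕ) (hd : Odd d) (hd5 : 5 ≤ d) (hn : 0 < n)
    (h : 2 * (n : ℤ) ≡ -1 [ZMOD d]) : CongZero n 4 (S d n) := by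
  obtain ⟨e, rfl⟩ : ∃ e, d = 2 * e + 5 := by
    obtain ⟨t, rfl⟩ := hd
    exact ⟨t - 2, by omega⟩
  obtain ⟨g, hg⟩ := h.symm.dvd
  have hg0 : 0 < g := by
    by_contra h0
    have : ((2 * e + 5 : ℕ) : ℤ) * g ≤ 0 := mul_nonpos_of_nonneg_of_nonpos (by positivity) (by omega)
    omega
  obtain ⟨h', rfl⟩ := Int.eq_ofNat_of_zero_le hg0.le
  have hn1 : 1 < n := by
    have : ((2 * e + 5 : ℕ) : ℤ) * 1 ≤ ((2 * e + 5 : ℕ) : ℤ) * (h' : ℤ) :=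
      mul_le_mul_of_nonneg_left (by omega) (by positivity)
    push_cast at this hg
    omega
  have h1 := V11316.cong2 (e := e) (n := n) (g := h') (α := 1)
    (ζ := (((2 * e + 5) * (e + 1) : ℕ) : ℤ)) (Or.inl rfl) hn1 (by linarith)
    (by push_cast; ring)
  have h2 := V11316.plus_sum hn1 h1
  have h3 : S (2 * e + 5) n = ∑ k ∈ range n,
      ((1 - V11307.Q.q ^ (2 * (2 * e + 5) * k + 1)) / (1 - V11307.Q.q)) *
      ((∏ i ∈ range k, (1 - V11307.Q.q * (V11307.Q.q ^ (2 * e + 5)) ^ i)) /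
        (∏ i ∈ range k, (1 - V11307.Q.q ^ (2 * e + 5) * (V11307.Q.q ^ (2 * e + 5)) ^ i)))
          ^ (2 * e + 5) * V11307.Q.q ^ ((2 * e + 5) * (e + 1) * k) := by
    unfold S
    refine sum_congr rfl fun k _ => ?_
    rw [show (2 * e + 5) * (2 * e + 5 - 3) / 2 = (2 * e + 5) * (e + 1) by
      rw [show 2 * e + 5 - 3 = (e + 1) * 2 by omega, ← mul_assoc]
      exact Nat.mul_div_cancel _ two_pos]
    rfl
  rw [h3]
  obtain ⟨A, B, hB, ⟨A', rfl⟩, h⟩ := V11316.I.int hn h2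
  exact ⟨A', B, hB, h⟩

end

end Pool.Agent.Results.MP_3c5a12_nt.PhiFourth
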